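import Mathlib
import Pool.Agent.H22.KF.Targets

open MeasureTheory Filter Topology
open scoped ENNReal

namespace KF92

open KF InnerProductSpace

theorem qr (z : Fin 3 → V3) (hz : Matrix.det (Matrix.of z) ≠ 0) :
    ∃ (k : Fin 3 → V3) (n : Fin 3 → ℝ) (u01 u12 u02 : ℝ),
      (∀ i j, k i ⬝ᵥ k j = if i = j then 1 else 0) ∧ (∀ i, 0 < n i) ∧
      z 0 = n 0 • k 0 ∧ z 1 = n 1 • (k 1 + u01 • k 0) ∧
      z 2 = n 2 • (k 2 + u12 • k 1 + u02 • k 0) := by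
  set f : Fin 3 → EuclideanSpace ℝ (Fin 3) := fun i => WithLp.toLp 2 (z i) with hf
  have hli : LinearIndependent ℝ z := by
    have h1 : IsUnit (Matrix.of z) := by
      rw [Matrix.isUnit_iff_isUnit_det]
      exact isUnit_iff_ne_zero.2 hz
    exact Matrix.linearIndependent_rows_iff_isUnit.2 h1
  have hlf : LinearIndependent ℝ f := by
    exact hli.map' (WithLp.linearEquiv 2 ℝ (Fin 3 → ℝ)).symm.toLinearMap (by simp)
  have hon : Orthonormal ℝ (gramSchmidtNormed ℝ f) := gramSchmidtNormed_orthonormal hlf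
  have hne : ∀ i, gramSchmidt ℝ f i ≠ 0 := fun i => gramSchmidt_ne_zero i hlf
  have hn : ∀ i, 0 < ‖gramSchmidt ℝ f i‖ := fun i => norm_pos_iff.2 (hne i)
  have hg : ∀ i, gramSchmidt ℝ f i = ‖gramSchmidt ℝ f i‖ • gramSchmidtNormed ℝ f i := by
    intro i
    rw [gramSchmidtNormed, smul_smul]
    simp [(hn i).ne']
  have h0 : f 0 = gramSchmidt ℝ f 0 := by
    have := gramSchmidt_def'' ℝ f 0
    rw [show Finset.Iio (0 : Fin 3) = ∅ by decide, Finset.sum_empty, add_zero] at this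
    exact this
  have hI1 : Finset.Iio (1 : Fin 3) = {0} := by decide
  have hI2 : Finset.Iio (2 : Fin 3) = {0, 1} := by decide
  obtain ⟨c, h1⟩ : ∃ c : ℝ, f 1 = gramSchmidt ℝ f 1 + c • gramSchmidt ℝ f 0 := by
    have := gramSchmidt_def'' ℝ f 1
    rw [hI1, Finset.sum_singleton] at this
    exact ⟨_, this⟩
  obtain ⟨c1, c2, h2⟩ : ∃ c1 c2 : ℝ, f 2 = gramSchmidt ℝ f 2 + (c1 • gramSchmidt ℝ f 0
      + c2 • gramSchmidt ℝ f 1) := by
    have := gramSchmidt_def'' ℝ f 2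
    rw [hI2, Finset.sum_pair (by decide)] at this
    exact ⟨_, _, this⟩
  set g := gramSchmidt ℝ f with hgd
  set e := gramSchmidtNormed ℝ f with he
  refine ⟨fun i => (e i).ofLp, fun i => ‖g i‖, c * ‖g 0‖ / ‖g 1‖, c2 * ‖g 1‖ / ‖g 2‖,
    c1 * ‖g 0‖ / ‖g 2‖, ?_, hn, ?_, ?_, ?_⟩
  · intro i j
    have := orthonormal_iff_ite.1 hon i j
    rw [← this, EuclideanSpace.inner_eq_star_dotProduct]
    simp [dotProduct_comm]
  · have : f 0 = ‖g 0‖ • e 0 := by rw [h0]; exact hg 0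
    have := congrArg WithLp.ofLp this
    simpa [hf] using this
  · have : f 1 = ‖g 1‖ • (e 1 + (c * ‖g 0‖ / ‖g 1‖) • e 0) := by
      rw [h1, smul_add, ← hg 1, smul_smul, mul_div_cancel₀ _ (hn 1).ne', ← smul_smul, ← hg 0]
    have := congrArg WithLp.ofLp this
    simpa [hf] using this
  · have : f 2 = ‖g 2‖ • (e 2 + (c2 * ‖g 1‖ / ‖g 2‖) • e 1 + (c1 * ‖g 0‖ / ‖g 2‖) • e 0) := by
      rw [h2, smul_add, smul_add, ← hg 2, smul_smul, mul_div_cancel₀ _ (hn 2).ne', ← smul_smul,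
        ← hg 1, smul_smul, mul_div_cancel₀ _ (hn 2).ne', ← smul_smul, ← hg 0]
      abel
    have := congrArg WithLp.ofLp this
    simpa [hf] using this

/-- Gram-Schmidt data -/
structure Dat (m C x01 x12 x02 Δ : ℝ) (z : Fin 3 → V3) where
  k : Fin 3 → V3
  n : Fin 3 → ℝ
  u01 : ℝ
  u12 : ℝ
  u02 : ℝ
  on : ∀ i j, k i ⬝ᵥ k j = if i = j then 1 else 0
  npos : ∀ i, 0 < n i
  h0 : z 0 = n 0 • k 0
  h1 : z 1 = n 1 • (k 1 + u01 • k 0)
  h2 : z 2 = n 2 • (k 2 + u12 • k 1 + u02 • k 0)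
  b01 : |u01 * x01| ≤ m
  b12 : |u12 * x12| ≤ m
  b02 : |u02 * x02 - u01 * u12 * x01| ≤ m
  nD : n 0 * n 1 * n 2 = Δ
  n0l : 1 ≤ n 0
  n0u : n 0 ≤ C * m ^ 2
  n1l : 1 ≤ n 0 * n 1
  n1u : n 0 * n 1 ≤ 2 * C * m ^ 3

theorem abs_le_one_of_on {k : Fin 3 → V3} (hk : ∀ i j, k i ⬝ᵥ k j = if i = j then 1 else 0)
    (i j : Fin 3) : |k i j| ≤ 1 := by
  have h := hk i i
  rw [if_pos rfl] at h
  simp only [dotProduct, Fin.sum_univ_three] at h
  rw [abs_le_one_iff_mul_self_le_one]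
  fin_cases j <;> simp <;> nlinarith [mul_self_nonneg (k i 0), mul_self_nonneg (k i 1),
    mul_self_nonneg (k i 2)]

theorem quad_le (N : MZ) (m : ℕ) (hN : l1 N ≤ m) (a b : V3) (ha : ∀ i, |a i| ≤ 1)
    (hb : ∀ i, |b i| ≤ 1) : |a ⬝ᵥ (N.map (Int.cast : ℤ → ℝ)).mulVec b| ≤ m := by
  have h1 : a ⬝ᵥ (N.map (Int.cast : ℤ → ℝ)).mulVec b = ∑ i, ∑ j, a i * ((N i j : ℤ) : ℝ) * b j := by
    simp only [dotProduct, Matrix.mulVec, Matrix.map_apply, Finset.mul_sum, mul_assoc]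
  rw [h1]
  calc |∑ i, ∑ j, a i * ((N i j : ℤ) : ℝ) * b j|
      ≤ ∑ i, |∑ j, a i * ((N i j : ℤ) : ℝ) * b j| := Finset.abs_sum_le_sum_abs _ _
    _ ≤ ∑ i, ∑ j, |a i * ((N i j : ℤ) : ℝ) * b j| :=
        Finset.sum_le_sum fun i _ => Finset.abs_sum_le_sum_abs _ _
    _ ≤ ∑ i, ∑ j, (((N i j).natAbs : ℕ) : ℝ) := by
        refine Finset.sum_le_sum fun i _ => Finset.sum_le_sum fun j _ => ?_
        rw [abs_mul, abs_mul]
        have h2 : (((N i j).natAbs : ℕ) : ℝ) = |((N i j : ℤ) : ℝ)| := by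
          rw [Nat.cast_natAbs, Int.cast_abs]
        rw [h2]
        have h3 := abs_nonneg ((N i j : ℤ) : ℝ)
        calc |a i| * |((N i j : ℤ) : ℝ)| * |b j| ≤ 1 * |((N i j : ℤ) : ℝ)| * 1 := by
              gcongr
              · exact ha i
              · exact hb j
          _ = _ := by ring
    _ = ((l1 (n := 2) N : ℕ) : ℝ) := by
        rw [l1]; push_cast; rfl
    _ ≤ m := by exact_mod_cast hN

theorem dot_smul3 (a x y : V3) (c : ℝ) : a ⬝ᵥ (c • x) = c * (a ⬝ᵥ x) := by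
  simp

/-- the eigenvector relations in Gram-Schmidt coordinates -/
theorem gs_rel (N : MR) (k : Fin 3 → V3) (n : Fin 3 → ℝ) (u01 u12 u02 : ℝ) (z : Fin 3 → V3)
    (e : Fin 3 → ℝ)
    (on : ∀ i j, k i ⬝ᵥ k j = if i = j then 1 else 0) (npos : ∀ i, 0 < n i)
    (h0 : z 0 = n 0 • k 0) (h1 : z 1 = n 1 • (k 1 + u01 • k 0))
    (h2 : z 2 = n 2 • (k 2 + u12 • k 1 + u02 • k 0))
    (he : ∀ i, N.mulVec (z i) = e i • z i) :
    k 0 ⬝ᵥ N.mulVec (k 1) = u01 * (e 1 - e 0) ∧ k 1 ⬝ᵥ N.mulVec (k 2) = u12 * (e 2 - e 1) ∧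
    k 0 ⬝ᵥ N.mulVec (k 2) = u02 * (e 2 - e 0) - u01 * u12 * (e 1 - e 0) := by
  have r0 : N.mulVec (k 0) = e 0 • k 0 := by
    have := he 0
    rw [h0, Matrix.mulVec_smul, smul_comm] at this
    exact smul_right_injective _ (npos 0).ne' this
  have r1 : N.mulVec (k 1 + u01 • k 0) = e 1 • (k 1 + u01 • k 0) := by
    have := he 1
    rw [h1, Matrix.mulVec_smul, smul_comm] at this
    exact smul_right_injective _ (npos 1).ne' this
  have r2 : N.mulVec (k 2 + u12 • k 1 + u02 • k 0) = e 2 • (k 2 + u12 • k 1 + u02 • k 0) := by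
    have := he 2
    rw [h2, Matrix.mulVec_smul, smul_comm] at this
    exact smul_right_injective _ (npos 2).ne' this
  rw [Matrix.mulVec_add, Matrix.mulVec_smul, r0] at r1
  rw [Matrix.mulVec_add, Matrix.mulVec_add, Matrix.mulVec_smul, Matrix.mulVec_smul, r0] at r2
  have a01 := congrArg (fun y' => k 0 ⬝ᵥ y') r1
  have a11 := congrArg (fun y => k 1 ⬝ᵥ y) r1
  have a02 := congrArg (fun y => k 0 ⬝ᵥ y) r2
  have a12 := congrArg (fun y => k 1 ⬝ᵥ y) r2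
  simp only [dotProduct_add, dotProduct_smul, smul_eq_mul, on, smul_add] at a01 a11 a02 a12
  simp at a01 a11 a02 a12
  refine ⟨by linarith, ?_, ?_⟩
  · have h11 : k 1 ⬝ᵥ N.mulVec (k 1) = e 1 := by linarith
    rw [h11] at a12
    linarith
  · have h01 : k 0 ⬝ᵥ N.mulVec (k 1) = u01 * (e 1 - e 0) := by linarith
    rw [h01] at a02
    linear_combination a02

theorem nrm_sq (x : V3) : nrm x ^ 2 = x ⬝ᵥ x := by
  rw [nrm, Real.sq_sqrt (Finset.sum_nonneg fun i _ => sq_nonneg _)]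
  simp [dotProduct, sq]

theorem nrm_nonneg (x : V3) : 0 ≤ nrm x := Real.sqrt_nonneg _

/-- cross product of real vectors -/
def crossR (x y : V3) : V3 :=
  ![x 1 * y 2 - x 2 * y 1, x 2 * y 0 - x 0 * y 2, x 0 * y 1 - x 1 * y 0]

theorem crossR_sq (x y : V3) : crossR x y ⬝ᵥ crossR x y = (x ⬝ᵥ x) * (y ⬝ᵥ y) - (x ⬝ᵥ y) ^ 2 := by
  simp [crossR, dotProduct, Fin.sum_univ_three]
  ring

theorem gs_norms (k : Fin 3 → V3) (n : Fin 3 → ℝ) (u01 u12 u02 : ℝ) (z : Fin 3 → V3)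
    (on : ∀ i j, k i ⬝ᵥ k j = if i = j then 1 else 0) (npos : ∀ i, 0 < n i)
    (h0 : z 0 = n 0 • k 0) (h1 : z 1 = n 1 • (k 1 + u01 • k 0))
    (h2 : z 2 = n 2 • (k 2 + u12 • k 1 + u02 • k 0)) :
    n 0 = nrm (z 0) ∧ n 0 * n 1 = nrm (crossR (z 0) (z 1)) ∧
    n 0 * n 1 * n 2 = |Matrix.det (Matrix.of z)| := by
  refine ⟨?_, ?_, ?_⟩
  · refine (pow_left_inj₀ (npos 0).le (nrm_nonneg _) two_ne_zero).1 ?_
    rw [nrm_sq, h0]
    simp only [smul_dotProduct, dotProduct_smul, on, smul_eq_mul]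
    simp [sq]
  · refine (pow_left_inj₀ (mul_pos (npos 0) (npos 1)).le (nrm_nonneg _) two_ne_zero).1 ?_
    rw [nrm_sq, crossR_sq, h0, h1]
    simp only [smul_dotProduct, dotProduct_smul, on, smul_eq_mul, dotProduct_add, add_dotProduct]
    simp
    ring
  · set L : MR := !![n 0, 0, 0; n 1 * u01, n 1, 0; n 2 * u02, n 2 * u12, n 2] with hL
    have hz : Matrix.of z = L * Matrix.of k := by
      ext i j
      rw [Matrix.mul_apply, Fin.sum_univ_three]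
      fin_cases i
      · simp [hL, h0]
      · simp [hL, h1]; ring
      · simp [hL, h2]; ring
    have hK : Matrix.of k * (Matrix.of k).transpose = 1 := by
      ext i j
      rw [Matrix.mul_apply]
      have := on i j
      simp only [dotProduct] at this
      simp only [Matrix.transpose_apply, Matrix.of_apply]
      rw [this, Matrix.one_apply]
    have hd : (Matrix.of k).det ^ 2 = 1 := by
      have := congrArg Matrix.det hK
      rw [Matrix.det_mul, Matrix.det_transpose, Matrix.det_one] at this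
      rw [sq]; exact this
    have hd' : |(Matrix.of k).det| = 1 := by
      rw [← sq_eq_sq₀ (abs_nonneg _) zero_le_one, sq_abs, hd, one_pow]
    have hdL : L.det = n 0 * n 1 * n 2 := by
      rw [hL, Matrix.det_fin_three]
      simp
    rw [hz, Matrix.det_mul, abs_mul, hd', mul_one, hdL, abs_of_pos]
    exact mul_pos (mul_pos (npos 0) (npos 1)) (npos 2)

theorem crossR_cst (x y : VZ) : crossR (cst x) (cst y) = cst (crossZ x y) := by
  funext i
  fin_cases i <;> simp [crossR, crossZ, cst]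

theorem one_le_nz {x : VZ} (hx : x ≠ 0) : 1 ≤ nz x := by
  obtain ⟨i, hi⟩ : ∃ i, x i ≠ 0 := by
    by_contra h
    push Not at h
    exact hx (funext h)
  rw [nz, nrm, Real.one_le_sqrt]
  have h1 : (1 : ℝ) ≤ (cst x i) ^ 2 := by
    have : (1 : ℤ) ≤ (x i) ^ 2 := by
      have := sq_pos_of_ne_zero hi
      linarith
    simp only [cst]
    exact_mod_cast this
  exact h1.trans (Finset.single_le_sum (f := fun i => (cst x i) ^ 2) (fun j _ => sq_nonneg _)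
    (Finset.mem_univ i))

theorem prim_ne {x : VZ} (hx : Prim x) : x ≠ 0 := by
  intro h
  have h2 := hx 2 (by intro j; rw [h]; simp)
  rw [Int.isUnit_iff] at h2
  omega

theorem nrm_smul (c : ℝ) (x : V3) : nrm (c • x) = |c| * nrm x := by
  refine (pow_left_inj₀ (nrm_nonneg _) (mul_nonneg (abs_nonneg _) (nrm_nonneg _)) two_ne_zero).1 ?_
  rw [mul_pow, nrm_sq, nrm_sq, sq_abs]
  simp
  ring

theorem det_act (φ : Frame) (γ : GZ) : |Matrix.det (Frame.act γ φ).Rm| = |Matrix.det φ.Rm| := by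
  have h1 : (Frame.act γ φ).Rm = φ.Rm * ((γ : MZ).map (Int.cast : ℤ → ℝ)).transpose := by
    ext i j
    simp only [Frame.Rm, Frame.act, mulZ, Matrix.of_apply, Matrix.mul_apply, Matrix.transpose_apply,
      Matrix.map_apply, Matrix.mulVec, dotProduct]
    push_cast
    exact Finset.sum_congr rfl fun k _ => mul_comm _ _
  rw [h1, Matrix.det_mul, Matrix.det_transpose, abs_mul]
  have h2 : ((γ : MZ).map (Int.cast : ℤ → ℝ)).det = (((γ : MZ).det : ℤ) : ℝ) := by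
    have := (Int.castRingHom ℝ).map_det (γ : MZ)
    simpa using this.symm
  have h3 : IsUnit ((γ : MZ).det) := (Matrix.isUnit_iff_isUnit_det _).1 γ.isUnit
  rw [h2]
  rcases Int.isUnit_iff.1 h3 with h | h <;> rw [h] <;> simp

theorem dat_exists (hEV1 : T_EV1) (hEV3 : T_EV3) (hW0 : T_W0) :
    ∃ C : ℝ, 1 ≤ C ∧ ∀ (m : ℕ) (φ : Frame) (γ : GZ), 2 ≤ m → l1 (conjZ γ φ.M) ≤ m →
      Nonempty (Dat m C φ.x01 φ.x12 φ.x02 |Matrix.det φ.Rm| (fun i => cst (mulZ γ (φ.v i)))) := by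
  obtain ⟨C0, hC0⟩ := hEV1
  refine ⟨max C0 1, le_max_right _ _, ?_⟩
  intro m φ γ hm hl
  have hm1 : (1 : ℝ) ≤ m := by exact_mod_cast (by omega : 1 ≤ m)
  set ψ := Frame.act γ φ with hψ
  have hent : ∀ i j, |((ψ.M i j : ℤ) : ℝ)| ≤ m := by
    intro i j
    have h1 : (ψ.M i j).natAbs ≤ l1 (n := 2) ψ.M := by
      rw [l1]
      refine le_trans ?_ (Finset.single_le_sum (f := fun i => ∑ j, (ψ.M i j).natAbs)
        (fun _ _ => Nat.zero_le _) (Finset.mem_univ i))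
      exact Finset.single_le_sum (f := fun j => (ψ.M i j).natAbs) (fun _ _ => Nat.zero_le _)
        (Finset.mem_univ j)
    have h2 : (((ψ.M i j).natAbs : ℕ) : ℝ) = |((ψ.M i j : ℤ) : ℝ)| := by
      rw [Nat.cast_natAbs, Int.cast_abs]
    rw [← h2]
    exact_mod_cast h1.trans hl
  obtain ⟨hv, hw⟩ := hC0 m ψ hm1 hent
  obtain ⟨w1, w2, w3, w4, w5, w6, w7⟩ := hW0 ψ
  set z : Fin 3 → V3 := fun i => cst (mulZ γ (φ.v i)) with hz
  have hzψ : ∀ i, z i = cst (ψ.v i) := fun i => rfl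
  have hdz : Matrix.of z = ψ.Rm := by
    ext i j
    rfl
  have hdet : Matrix.det (Matrix.of z) ≠ 0 := by rw [hdz]; exact ψ.det_ne
  obtain ⟨k, n, u01, u12, u02, on, npos, h0, h1, h2⟩ := qr z hdet
  obtain ⟨g0, g1, g2⟩ := gs_norms k n u01 u12 u02 z on npos h0 h1 h2
  have heig : ∀ i, (ψ.M.map (Int.cast : ℤ → ℝ)).mulVec (z i) = (φ.ev i : ℝ) • z i := by
    intro i
    funext j
    have h := congrFun (ψ.eig i) j
    simp only [Matrix.mulVec, dotProduct, Pi.smul_apply, smul_eq_mul, Matrix.map_apply] at h ⊢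
    have h' : ((∑ x, ψ.M j x * ψ.v i x : ℤ) : ℝ) = ((ψ.ev i * ψ.v i j : ℤ) : ℝ) := by rw [h]
    push_cast at h'
    exact h'
  obtain ⟨r1, r2, r3⟩ := gs_rel _ k n u01 u12 u02 z (fun i => (φ.ev i : ℝ)) on npos h0 h1 h2 heig
  have hq : ∀ i j, |k i ⬝ᵥ (ψ.M.map (Int.cast : ℤ → ℝ)).mulVec (k j)| ≤ m := fun i j =>
    quad_le ψ.M m hl _ _ (abs_le_one_of_on on i) (abs_le_one_of_on on j)
  have hx01 : ((φ.x01 : ℤ) : ℝ) = φ.ev 1 - φ.ev 0 := by rw [Frame.x01]; push_cast; ring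
  have hx12 : ((φ.x12 : ℤ) : ℝ) = φ.ev 2 - φ.ev 1 := by rw [Frame.x12]; push_cast; ring
  have hx02 : ((φ.x02 : ℤ) : ℝ) = φ.ev 2 - φ.ev 0 := by rw [Frame.x02]; push_cast; ring
  have hg0 : n 0 = nz (ψ.v 0) := g0
  have hgcd : nrm (crossR (z 0) (z 1)) = (gcd3 (crossZ (ψ.v 0) (ψ.v 1)) : ℝ) * nz ψ.w := by
    rw [hzψ, hzψ, crossR_cst]
    have : cst (crossZ (ψ.v 0) (ψ.v 1))
        = (gcd3 (crossZ (ψ.v 0) (ψ.v 1)) : ℝ) • cst ψ.w := by
      funext i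
      have h3 := congrFun w5 i
      simp only [Pi.smul_apply, smul_eq_mul] at h3
      simp only [cst, Pi.smul_apply, smul_eq_mul]
      exact_mod_cast h3
    rw [this, nrm_smul, abs_of_pos (by exact_mod_cast w4)]
    rfl
  have hgl : (1 : ℝ) ≤ (gcd3 (crossZ (ψ.v 0) (ψ.v 1)) : ℝ) := by exact_mod_cast w4
  have hev := hEV3 m φ γ hl
  have hx01le : |((φ.x01 : ℤ) : ℝ)| ≤ 2 * m := by
    rw [hx01]
    have e0 := hev 0
    have e1 := hev 1
    have e0' : |(φ.ev 0 : ℝ)| ≤ m := by exact_mod_cast e0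
    have e1' : |(φ.ev 1 : ℝ)| ≤ m := by exact_mod_cast e1
    calc |(φ.ev 1 : ℝ) - φ.ev 0| ≤ |(φ.ev 1 : ℝ)| + |(φ.ev 0 : ℝ)| := abs_sub _ _
      _ ≤ _ := by linarith
  have hgu : (gcd3 (crossZ (ψ.v 0) (ψ.v 1)) : ℝ) ≤ 2 * m := by
    refine le_trans ?_ hx01le
    have hne : φ.x01 ≠ 0 := by
      rw [Frame.x01]
      intro h
      have : φ.ev 1 = φ.ev 0 := by omega
      have := φ.inj this
      exact absurd this (by decide)
    have h3 : gcd3 (crossZ (ψ.v 0) (ψ.v 1)) ≤ |φ.x01| :=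
      Int.le_of_dvd (abs_pos.2 hne) ((dvd_abs _ _).2 w7)
    exact_mod_cast h3
  have hwl : 1 ≤ nz ψ.w := one_le_nz (prim_ne w1)
  have hCm : ∀ y : ℝ, y ≤ C0 * m ^ 2 → y ≤ max C0 1 * m ^ 2 := fun y hy =>
    hy.trans (mul_le_mul_of_nonneg_right (le_max_left _ _) (by positivity))
  refine ⟨⟨k, n, u01, u12, u02, on, npos, h0, h1, h2, ?_, ?_, ?_, ?_, ?_, ?_, ?_, ?_⟩⟩
  · rw [hx01, ← r1]; exact hq 0 1
  · rw [hx12, ← r2]; exact hq 1 2
  · rw [hx02, hx01, ← r3]; exact hq 0 2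
  · rw [g2, hdz, det_act]
  · rw [hg0]; exact one_le_nz (ψ.v_ne 0)
  · rw [hg0]; exact hCm _ (hv 0)
  · rw [g1, hgcd]
    nlinarith
  · rw [g1, hgcd]
    have h3 := hCm _ hw
    calc (gcd3 (crossZ (ψ.v 0) (ψ.v 1)) : ℝ) * nz ψ.w ≤ (2 * m) * (max C0 1 * m ^ 2) := by
          gcongr
      _ = _ := by ring

end KF92
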