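import Mathlib
import Pool.Agent.H92.KF.L1a

open MeasureTheory Filter Topology
open scoped ENNReal

namespace KF92

open KF

variable {m C x01 x12 x02 Δ : ℝ} {z z' : Fin 3 → V3}

namespace Dat

noncomputable def p1 (D : Dat m C x01 x12 x02 Δ z) : ℕ := ⌊Real.log (D.n 0)⌋₊
noncomputable def p2 (D : Dat m C x01 x12 x02 Δ z) : ℕ := ⌊Real.log (D.n 0 * D.n 1)⌋₊
noncomputable def t0 (D : Dat m C x01 x12 x02 Δ z) : ℝ := D.n 0 / Real.exp D.p1
noncomputable def t2 (D : Dat m C x01 x12 x02 Δ z) : ℝ := Real.exp D.p2 / (D.n 0 * D.n 1)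
noncomputable def t1 (D : Dat m C x01 x12 x02 Δ z) : ℝ := 1 / (D.t0 * D.t2)
noncomputable def s01 (D : Dat m C x01 x12 x02 Δ z) : ℝ := D.u01 * D.t1 / D.t0
noncomputable def s12 (D : Dat m C x01 x12 x02 Δ z) : ℝ := D.u12 * D.t2 / D.t1
noncomputable def s02 (D : Dat m C x01 x12 x02 Δ z) : ℝ := D.u02 * D.t2 / D.t0
noncomputable def n01 (D : Dat m C x01 x12 x02 Δ z) : ℤ := ⌊D.s01⌋
noncomputable def n12 (D : Dat m C x01 x12 x02 Δ z) : ℤ := ⌊D.s12⌋
noncomputable def n02 (D : Dat m C x01 x12 x02 Δ z) : ℤ := ⌊D.s02 - (D.s01 - D.n01) * D.n12⌋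

variable (D : Dat m C x01 x12 x02 Δ z)

theorem n0pos : 0 < D.n 0 := D.npos 0

theorem n01pos : 0 < D.n 0 * D.n 1 := mul_pos (D.npos 0) (D.npos 1)

theorem t0_mem : 1 ≤ D.t0 ∧ D.t0 < Real.exp 1 := by
  have h0 : 0 ≤ Real.log (D.n 0) := Real.log_nonneg D.n0l
  have h1 : (D.p1 : ℝ) ≤ Real.log (D.n 0) := Nat.floor_le h0
  have h2 : Real.log (D.n 0) < D.p1 + 1 := Nat.lt_floor_add_one _
  constructor
  · rw [t0, one_le_div (Real.exp_pos _), ← Real.le_log_iff_exp_le D.n0pos]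
    exact h1
  · rw [t0, div_lt_iff₀ (Real.exp_pos _), ← Real.exp_add, ← Real.log_lt_iff_lt_exp D.n0pos]
    linarith

theorem t2_mem : Real.exp (-1) < D.t2 ∧ D.t2 ≤ 1 := by
  have h0 : 0 ≤ Real.log (D.n 0 * D.n 1) := Real.log_nonneg D.n1l
  have h1 : (D.p2 : ℝ) ≤ Real.log (D.n 0 * D.n 1) := Nat.floor_le h0
  have h2 : Real.log (D.n 0 * D.n 1) < D.p2 + 1 := Nat.lt_floor_add_one _
  constructor
  · rw [t2, lt_div_iff₀ D.n01pos]
    have h3 : Real.exp (-1) * (D.n 0 * D.n 1) = Real.exp (-1 + Real.log (D.n 0 * D.n 1)) := by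
      rw [Real.exp_add, Real.exp_log D.n01pos]
    rw [h3, Real.exp_lt_exp]
    linarith
  · rw [t2, div_le_one D.n01pos, ← Real.le_log_iff_exp_le D.n01pos]
    exact h1

theorem t0pos : 0 < D.t0 := zero_lt_one.trans_le D.t0_mem.1
theorem t2pos : 0 < D.t2 := (Real.exp_pos _).trans D.t2_mem.1
theorem t1pos : 0 < D.t1 := by
  rw [t1]; exact div_pos one_pos (mul_pos D.t0pos D.t2pos)

theorem t0_lt : D.t0 < 3 := D.t0_mem.2.trans Real.exp_one_lt_three
theorem t2_gt : 1 / 3 < D.t2 := by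
  refine lt_trans ?_ D.t2_mem.1
  rw [Real.exp_neg, ← one_div]
  exact one_div_lt_one_div_of_lt (Real.exp_pos _) Real.exp_one_lt_three

theorem t1_lt : D.t1 < 3 := by
  rw [t1, div_lt_iff₀ (mul_pos D.t0pos D.t2pos)]
  nlinarith [D.t0_mem.1, D.t2_gt]

theorem t1_gt : 1 / 3 < D.t1 := by
  rw [t1, lt_div_iff₀ (mul_pos D.t0pos D.t2pos)]
  have h1 := D.t0_lt
  have h2 := D.t2_mem.2
  have h3 := D.t0pos
  have h4 := D.t2pos
  nlinarith

theorem t_prod : D.t0 * D.t1 * D.t2 = 1 := by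
  rw [t1]
  have h3 := D.t0pos.ne'
  have h4 := D.t2pos.ne'
  field_simp

theorem n0_eq : D.n 0 = D.t0 * Real.exp D.p1 := by
  rw [t0, div_mul_cancel₀ _ (Real.exp_pos _).ne']

theorem n01_eq : D.n 0 * D.n 1 = Real.exp D.p2 / D.t2 := by
  rw [t2]
  have h1 := D.n01pos.ne'
  have h2 := (Real.exp_pos (D.p2 : ℝ)).ne'
  field_simp

theorem n1_eq : D.n 1 = D.t1 * Real.exp D.p2 / Real.exp D.p1 := by
  have h1 := D.n01_eq
  rw [D.n0_eq] at h1
  have h3 := D.t0pos.ne'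
  have h4 := D.t2pos.ne'
  have h2 := (Real.exp_pos (D.p1 : ℝ)).ne'
  rw [t1]
  field_simp at h1 ⊢
  linarith

theorem n2_eq : D.n 2 = D.t2 * (Δ / Real.exp D.p2) := by
  have h1 := D.nD
  rw [D.n01_eq] at h1
  have h4 := D.t2pos.ne'
  have h2 := (Real.exp_pos (D.p2 : ℝ)).ne'
  have h5 : D.t2 * (Δ / Real.exp D.p2) = D.t2 * ((Real.exp D.p2 / D.t2 * D.n 2) / Real.exp D.p2) := by
    rw [h1]
  rw [h5]
  field_simp

theorem Δpos (D : Dat m C x01 x12 x02 Δ z) : 0 < Δ := by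
  have h1 := D.nD
  rw [← h1]
  exact mul_pos (mul_pos (D.npos 0) (D.npos 1)) (D.npos 2)

theorem cmp (D : Dat m C x01 x12 x02 Δ z) (D' : Dat m C x01 x12 x02 Δ z') (H : MR)
    (hH : ∀ i, H.mulVec (z' i) = z i) (e1 : D.p1 = D'.p1) (e2 : D.p2 = D'.p2)
    (f01 : D.n01 = D'.n01) (f12 : D.n12 = D'.n12) (f02 : D.n02 = D'.n02) :
    ∀ i j, |H i j| ≤ 63 := by
  obtain ⟨a, ha⟩ : ∃ a : Fin 3 → V3, a = fun l => H.mulVec (D'.k l) := ⟨_, rfl⟩
  have hal : ∀ l, a l = H.mulVec (D'.k l) := fun l => by rw [ha]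
  have E1 := Real.exp_pos (D'.p1 : ℝ)
  have E2 := Real.exp_pos (D'.p2 : ℝ)
  have hΔ := D.Δpos
  have q0 := D.t0pos
  have q1 := D.t1pos
  have q2 := D.t2pos
  have q0' := D'.t0pos
  have q1' := D'.t1pos
  have q2' := D'.t2pos
  have U01 : D.u01 * D.t1 = D.s01 * D.t0 := by rw [s01]; field_simp
  have U12 : D.u12 * D.t2 = D.s12 * D.t1 := by rw [s12]; field_simp
  have U02 : D.u02 * D.t2 = D.s02 * D.t0 := by rw [s02]; field_simp
  have U01' : D'.u01 * D'.t1 = D'.s01 * D'.t0 := by rw [s01]; field_simp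
  have U12' : D'.u12 * D'.t2 = D'.s12 * D'.t1 := by rw [s12]; field_simp
  have U02' : D'.u02 * D'.t2 = D'.s02 * D'.t0 := by rw [s02]; field_simp
  have N0 := D.n0_eq
  have N1 := D.n1_eq
  have N2 := D.n2_eq
  have N0' := D'.n0_eq
  have N1' := D'.n1_eq
  have N2' := D'.n2_eq
  rw [e1] at N0
  rw [e1, e2] at N1
  rw [e2] at N2
  -- the three relations
  have A0 : ∀ i, D'.t0 * a 0 i = D.t0 * D.k 0 i := by
    intro i
    have h := hH 0
    rw [D'.h0, D.h0, Matrix.mulVec_smul, ← hal] at h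
    have h' := congrFun h i
    simp only [Pi.smul_apply, smul_eq_mul] at h'
    rw [N0, N0'] at h'
    have : Real.exp D'.p1 * (D'.t0 * a 0 i) = Real.exp D'.p1 * (D.t0 * D.k 0 i) := by linarith
    exact mul_left_cancel₀ E1.ne' this
  have A1 : ∀ i, D'.t1 * a 1 i = D.t1 * D.k 1 i + (D.s01 - D'.s01) * D.t0 * D.k 0 i := by
    intro i
    have h := hH 1
    rw [D'.h1, D.h1, Matrix.mulVec_smul, Matrix.mulVec_add, Matrix.mulVec_smul, ← hal, ← hal] at h
    have h' := congrFun h i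
    simp only [Pi.smul_apply, Pi.add_apply, smul_eq_mul] at h'
    rw [N1, N1'] at h'
    have h2 : (Real.exp D'.p2 / Real.exp D'.p1) * (D'.t1 * (a 1 i + D'.u01 * a 0 i))
        = (Real.exp D'.p2 / Real.exp D'.p1) * (D.t1 * (D.k 1 i + D.u01 * D.k 0 i)) := by
      calc (Real.exp D'.p2 / Real.exp D'.p1) * (D'.t1 * (a 1 i + D'.u01 * a 0 i))
          = D'.t1 * Real.exp D'.p2 / Real.exp D'.p1 * (a 1 i + D'.u01 * a 0 i) := by ring
        _ = D.t1 * Real.exp D'.p2 / Real.exp D'.p1 * (D.k 1 i + D.u01 * D.k 0 i) := h'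
        _ = _ := by ring
    have h3 := mul_left_cancel₀ (div_pos E2 E1).ne' h2
    linear_combination h3 - a 0 i * U01' - D'.s01 * A0 i + D.k 0 i * U01
  have A2 : ∀ i, D'.t2 * a 2 i = D.t2 * D.k 2 i + (D.s12 - D'.s12) * D.t1 * D.k 1 i
      + (D.s02 - D'.s02 - D'.s12 * (D.s01 - D'.s01)) * D.t0 * D.k 0 i := by
    intro i
    have h := hH 2
    rw [D'.h2, D.h2, Matrix.mulVec_smul, Matrix.mulVec_add, Matrix.mulVec_add, Matrix.mulVec_smul,
      Matrix.mulVec_smul, ← hal, ← hal, ← hal] at h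
    have h' := congrFun h i
    simp only [Pi.smul_apply, Pi.add_apply, smul_eq_mul] at h'
    rw [N2, N2'] at h'
    have h2 : (Δ / Real.exp D'.p2) * (D'.t2 * (a 2 i + D'.u12 * a 1 i + D'.u02 * a 0 i))
        = (Δ / Real.exp D'.p2) * (D.t2 * (D.k 2 i + D.u12 * D.k 1 i + D.u02 * D.k 0 i)) := by
      calc (Δ / Real.exp D'.p2) * (D'.t2 * (a 2 i + D'.u12 * a 1 i + D'.u02 * a 0 i))
          = D'.t2 * (Δ / Real.exp D'.p2) * (a 2 i + D'.u12 * a 1 i + D'.u02 * a 0 i) := by ring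
        _ = D.t2 * (Δ / Real.exp D'.p2) * (D.k 2 i + D.u12 * D.k 1 i + D.u02 * D.k 0 i) := h'
        _ = _ := by ring
    have h3 := mul_left_cancel₀ (div_pos hΔ E2).ne' h2
    linear_combination h3 - a 1 i * U12' - a 0 i * U02' + D.k 1 i * U12 + D.k 0 i * U02
      - D'.s02 * A0 i - D'.s12 * A1 i
  -- bounds
  have W01 : |D.s01 - D'.s01| ≤ 1 := by
    have h1 := Int.floor_le D.s01
    have h2 := Int.lt_floor_add_one D.s01
    have h3 := Int.floor_le D'.s01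
    have h4 := Int.lt_floor_add_one D'.s01
    have h5 : (⌊D.s01⌋ : ℝ) = ⌊D'.s01⌋ := by exact_mod_cast f01
    rw [abs_le]; constructor <;> linarith
  have W12 : |D.s12 - D'.s12| ≤ 1 := by
    have h1 := Int.floor_le D.s12
    have h2 := Int.lt_floor_add_one D.s12
    have h3 := Int.floor_le D'.s12
    have h4 := Int.lt_floor_add_one D'.s12
    have h5 : (⌊D.s12⌋ : ℝ) = ⌊D'.s12⌋ := by exact_mod_cast f12
    rw [abs_le]; constructor <;> linarith
  have W02 : |D.s02 - D'.s02 - D'.s12 * (D.s01 - D'.s01)| ≤ 2 := by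
    have h1 := Int.floor_le (D.s02 - (D.s01 - D.n01) * D.n12)
    have h2 := Int.lt_floor_add_one (D.s02 - (D.s01 - D.n01) * D.n12)
    have h3 := Int.floor_le (D'.s02 - (D'.s01 - D'.n01) * D'.n12)
    have h4 := Int.lt_floor_add_one (D'.s02 - (D'.s01 - D'.n01) * D'.n12)
    have h5 : (⌊D.s02 - (D.s01 - D.n01) * D.n12⌋ : ℝ)
      = ⌊D'.s02 - (D'.s01 - D'.n01) * D'.n12⌋ := by exact_mod_cast f02
    have h6 : D'.s02 - (D'.s01 - D'.n01) * D'.n12 = D'.s02 - (D'.s01 - D.n01) * D.n12 := by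
      rw [f01, f12]
    rw [h6] at h3 h4 h5
    have h7 : 0 ≤ D'.s12 - D.n12 ∧ D'.s12 - D.n12 < 1 := by
      have g1 := Int.floor_le D'.s12
      have g2 := Int.lt_floor_add_one D'.s12
      have g3 : (D.n12 : ℝ) = ⌊D'.s12⌋ := by exact_mod_cast f12
      rw [g3]; constructor <;> linarith
    have h8 : |(D.s02 - (D.s01 - D.n01) * D.n12) - (D'.s02 - (D'.s01 - D.n01) * D.n12)| ≤ 1 := by
      rw [abs_le]; constructor <;> linarith
    have h9 : |(D'.s12 - D.n12) * (D.s01 - D'.s01)| ≤ 1 := by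
      rw [abs_mul]
      have : |D'.s12 - D.n12| ≤ 1 := by rw [abs_of_nonneg h7.1]; exact h7.2.le
      calc |D'.s12 - D.n12| * |D.s01 - D'.s01| ≤ 1 * 1 := by gcongr
        _ = 1 := one_mul 1
    have h10 : D.s02 - D'.s02 - D'.s12 * (D.s01 - D'.s01)
        = ((D.s02 - (D.s01 - D.n01) * D.n12) - (D'.s02 - (D'.s01 - D.n01) * D.n12))
          - (D'.s12 - D.n12) * (D.s01 - D'.s01) := by ring
    rw [h10]
    refine (abs_sub _ _).trans ?_
    linarith
  have K : ∀ l i, |D.k l i| ≤ 1 := fun l i => abs_le_one_of_on D.on l i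
  have B0 : ∀ i, |a 0 i| ≤ 9 := by
    intro i
    have h1 : D'.t0 * |a 0 i| ≤ 3 := by
      rw [← abs_of_pos q0', ← abs_mul, A0 i, abs_mul, abs_of_pos q0]
      have := K 0 i
      nlinarith [D.t0_lt, abs_nonneg (D.k 0 i)]
    nlinarith [D'.t0_mem.1, abs_nonneg (a 0 i)]
  have B1 : ∀ i, |a 1 i| ≤ 18 := by
    intro i
    have h1 : D'.t1 * |a 1 i| ≤ 6 := by
      rw [← abs_of_pos q1', ← abs_mul, A1 i]
      calc _ ≤ |D.t1 * D.k 1 i| + |(D.s01 - D'.s01) * D.t0 * D.k 0 i| := abs_add_le _ _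
        _ = D.t1 * |D.k 1 i| + |D.s01 - D'.s01| * D.t0 * |D.k 0 i| := by
            rw [abs_mul, abs_mul, abs_mul, abs_of_pos q0, abs_of_pos q1]
        _ ≤ 3 * 1 + 1 * 3 * 1 := by
            have g1 := K 1 i
            have g0 := K 0 i
            have g3 := D.t1_lt
            have g4 := D.t0_lt
            gcongr
        _ = 6 := by norm_num
    nlinarith [D'.t1_gt, abs_nonneg (a 1 i)]
  have B2 : ∀ i, |a 2 i| ≤ 36 := by
    intro i
    have h1 : D'.t2 * |a 2 i| ≤ 12 := by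
      rw [← abs_of_pos q2', ← abs_mul, A2 i]
      calc _ ≤ |D.t2 * D.k 2 i + (D.s12 - D'.s12) * D.t1 * D.k 1 i| +
            |(D.s02 - D'.s02 - D'.s12 * (D.s01 - D'.s01)) * D.t0 * D.k 0 i| := abs_add_le _ _
        _ ≤ (|D.t2 * D.k 2 i| + |(D.s12 - D'.s12) * D.t1 * D.k 1 i|) +
            |(D.s02 - D'.s02 - D'.s12 * (D.s01 - D'.s01)) * D.t0 * D.k 0 i| := by
            gcongr
            exact abs_add_le _ _
        _ = D.t2 * |D.k 2 i| + |D.s12 - D'.s12| * D.t1 * |D.k 1 i|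
            + |D.s02 - D'.s02 - D'.s12 * (D.s01 - D'.s01)| * D.t0 * |D.k 0 i| := by
            rw [abs_mul, abs_mul, abs_mul, abs_mul, abs_mul, abs_of_pos q0, abs_of_pos q1,
              abs_of_pos q2]
        _ ≤ 3 * 1 + 1 * 3 * 1 + 2 * 3 * 1 := by
            have g1 := K 1 i
            have g0 := K 0 i
            have g2 := K 2 i
            have g3 := D.t1_lt
            have g4 := D.t0_lt
            have g5 : D.t2 ≤ 3 := D.t2_mem.2.trans (by norm_num)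
            gcongr
        _ = 12 := by norm_num
    nlinarith [D'.t2_gt, abs_nonneg (a 2 i)]
  have hK : (Matrix.of D'.k).transpose * (Matrix.of D'.k) = 1 := by
    rw [mul_eq_one_comm]
    ext i j
    rw [Matrix.mul_apply]
    have := D'.on i j
    simp only [dotProduct] at this
    simp only [Matrix.transpose_apply, Matrix.of_apply]
    rw [this, Matrix.one_apply]
  intro i j
  have hHij : H i j = a 0 i * D'.k 0 j + a 1 i * D'.k 1 j + a 2 i * D'.k 2 j := by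
    have h1 : H = H * ((Matrix.of D'.k).transpose * (Matrix.of D'.k)) := by rw [hK, mul_one]
    have h2 : H i j = (H * (Matrix.of D'.k).transpose * (Matrix.of D'.k)) i j := by
      rw [Matrix.mul_assoc, ← h1]
    rw [h2, Matrix.mul_apply, Fin.sum_univ_three, hal, hal, hal]
    rfl
  have K' : ∀ l i, |D'.k l i| ≤ 1 := fun l i => abs_le_one_of_on D'.on l i
  rw [hHij]
  calc _ ≤ |a 0 i * D'.k 0 j + a 1 i * D'.k 1 j| + |a 2 i * D'.k 2 j| := abs_add_le _ _
    _ ≤ |a 0 i * D'.k 0 j| + |a 1 i * D'.k 1 j| + |a 2 i * D'.k 2 j| := by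
        gcongr; exact abs_add_le _ _
    _ = |a 0 i| * |D'.k 0 j| + |a 1 i| * |D'.k 1 j| + |a 2 i| * |D'.k 2 j| := by
        rw [abs_mul, abs_mul, abs_mul]
    _ ≤ 9 * 1 + 18 * 1 + 36 * 1 := by
        have g0 := B0 i
        have g1 := B1 i
        have g2 := B2 i
        have g3 := K' 0 j
        have g4 := K' 1 j
        have g5 := K' 2 j
        gcongr
    _ = 63 := by norm_num

theorem n01_bd (hx : |x01| ≤ 2 * m) : |(D.n01 : ℝ)| * |x01| ≤ 5 * m := by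
  have hm : 0 ≤ m := (abs_nonneg _).trans D.b01
  have h1 : |D.s01| * |x01| ≤ 3 * m := by
    have h2 : D.s01 * x01 = (D.t1 / D.t0) * (D.u01 * x01) := by rw [s01]; ring
    rw [← abs_mul, h2, abs_mul, abs_of_pos (div_pos D.t1pos D.t0pos)]
    have h3 : D.t1 / D.t0 ≤ 3 := by
      rw [div_le_iff₀ D.t0pos]
      nlinarith [D.t1_lt, D.t0_mem.1]
    exact mul_le_mul h3 D.b01 (abs_nonneg _) (by norm_num)
  have h4 : |(D.n01 : ℝ)| ≤ |D.s01| + 1 := by
    have g1 := Int.floor_le D.s01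
    have g2 := Int.lt_floor_add_one D.s01
    have g3 : |(D.n01 : ℝ) - D.s01| ≤ 1 := by
      rw [n01, abs_le]; constructor <;> linarith
    have g4 := abs_add_le D.s01 ((D.n01 : ℝ) - D.s01)
    rw [add_sub_cancel] at g4
    linarith
  have h5 : (|D.s01| + 1) * |x01| ≤ 5 * m := by linarith
  exact (mul_le_mul_of_nonneg_right h4 (abs_nonneg _)).trans h5

theorem n12_bd (hx : |x12| ≤ 2 * m) : |(D.n12 : ℝ)| * |x12| ≤ 5 * m := by
  have hm : 0 ≤ m := (abs_nonneg _).trans D.b01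
  have h1 : |D.s12| * |x12| ≤ 3 * m := by
    have h2 : D.s12 * x12 = (D.t2 / D.t1) * (D.u12 * x12) := by rw [s12]; ring
    rw [← abs_mul, h2, abs_mul, abs_of_pos (div_pos D.t2pos D.t1pos)]
    have h3 : D.t2 / D.t1 ≤ 3 := by
      rw [div_le_iff₀ D.t1pos]
      nlinarith [D.t1_gt, D.t2_mem.2]
    exact mul_le_mul h3 D.b12 (abs_nonneg _) (by norm_num)
  have h4 : |(D.n12 : ℝ)| ≤ |D.s12| + 1 := by
    have g1 := Int.floor_le D.s12
    have g2 := Int.lt_floor_add_one D.s12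
    have g3 : |(D.n12 : ℝ) - D.s12| ≤ 1 := by
      rw [n12, abs_le]; constructor <;> linarith
    have g4 := abs_add_le D.s12 ((D.n12 : ℝ) - D.s12)
    rw [add_sub_cancel] at g4
    linarith
  have h5 : (|D.s12| + 1) * |x12| ≤ 5 * m := by linarith
  exact (mul_le_mul_of_nonneg_right h4 (abs_nonneg _)).trans h5

theorem n02_bd (hx01 : |x01| ≤ 2 * m) (hx12 : |x12| ≤ 2 * m) (hx02 : |x02| ≤ 2 * m)
    (ha : |x01| ≤ |x12|) (hb : |x02| ≤ 2 * |x12|) :
    |(D.n02 : ℝ) * x02 - D.n01 * D.n12 * x01| ≤ 25 * m := by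
  have hm : 0 ≤ m := (abs_nonneg _).trans D.b01
  have hN1 := D.n01_bd hx01
  have hN2 := D.n12_bd hx12
  set b01 := D.s01 - D.n01 with hb01
  set b12 := D.s12 - D.n12 with hb12
  set b02 := D.s02 - b01 * D.n12 - D.n02 with hb02
  have c01 : |b01| ≤ 1 := by
    have g1 := Int.floor_le D.s01
    have g2 := Int.lt_floor_add_one D.s01
    rw [hb01, n01, abs_le]; constructor <;> linarith
  have c12 : |b12| ≤ 1 := by
    have g1 := Int.floor_le D.s12
    have g2 := Int.lt_floor_add_one D.s12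
    rw [hb12, n12, abs_le]; constructor <;> linarith
  have c02 : |b02| ≤ 1 := by
    have g1 := Int.floor_le (D.s02 - (D.s01 - D.n01) * D.n12)
    have g2 := Int.lt_floor_add_one (D.s02 - (D.s01 - D.n01) * D.n12)
    rw [hb02, hb01, n02, abs_le]; constructor <;> linarith
  have h1 : |D.s02 * x02 - D.s01 * D.s12 * x01| ≤ m := by
    have h2 : D.s02 * x02 - D.s01 * D.s12 * x01
        = (D.t2 / D.t0) * (D.u02 * x02 - D.u01 * D.u12 * x01) := by
      rw [s02, s01, s12]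
      have q0 := D.t0pos.ne'
      have q1 := D.t1pos.ne'
      field_simp
    rw [h2, abs_mul, abs_of_pos (div_pos D.t2pos D.t0pos)]
    have h3 : D.t2 / D.t0 ≤ 1 := by
      rw [div_le_iff₀ D.t0pos]
      linarith [D.t2_mem.2, D.t0_mem.1]
    calc _ ≤ 1 * m := mul_le_mul h3 D.b02 (abs_nonneg _) (by norm_num)
      _ = m := one_mul m
  have h5 : (D.n02 : ℝ) * x02 - D.n01 * D.n12 * x01
      = (D.s02 * x02 - D.s01 * D.s12 * x01) + b01 * (D.n12 * x01) + b12 * (D.n01 * x01)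
        + b01 * b12 * x01 - b01 * (D.n12 * x02) - b02 * x02 := by
    rw [hb02]
    have e1 : D.s01 = D.n01 + b01 := by rw [hb01]; ring
    have e2 : D.s12 = D.n12 + b12 := by rw [hb12]; ring
    rw [e1, e2]
    ring
  have k1 : |b01 * (D.n12 * x01)| ≤ 5 * m := by
    rw [abs_mul, abs_mul]
    have : |(D.n12 : ℝ)| * |x01| ≤ 5 * m := by
      refine le_trans ?_ hN2
      gcongr
    calc _ ≤ 1 * (5 * m) := by gcongr
      _ = _ := one_mul _
  have k2 : |b12 * (D.n01 * x01)| ≤ 5 * m := by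
    rw [abs_mul, abs_mul]
    calc _ ≤ 1 * (5 * m) := by gcongr
      _ = _ := one_mul _
  have k3 : |b01 * b12 * x01| ≤ 2 * m := by
    rw [abs_mul, abs_mul]
    calc _ ≤ 1 * 1 * (2 * m) := by gcongr
      _ = _ := by ring
  have k4 : |b01 * (D.n12 * x02)| ≤ 10 * m := by
    rw [abs_mul, abs_mul]
    have : |(D.n12 : ℝ)| * |x02| ≤ 10 * m := by
      calc |(D.n12 : ℝ)| * |x02| ≤ |(D.n12 : ℝ)| * (2 * |x12|) := by gcongr
        _ ≤ _ := by linarith
    calc _ ≤ 1 * (10 * m) := by gcongr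
      _ = _ := one_mul _
  have k5 : |b02 * x02| ≤ 2 * m := by
    rw [abs_mul]
    calc _ ≤ 1 * (2 * m) := by gcongr
      _ = _ := one_mul _
  rw [h5]
  rw [abs_le] at h1 k1 k2 k3 k4 k5 ⊢
  constructor <;> linarith

end Dat

end KF92
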