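import Mathlib
import Pool.Agent.H92.KF.L1b

open MeasureTheory Filter Topology
open scoped ENNReal

namespace KF92

open KF

theorem log_bd {C : ℝ} (hC : 1 ≤ C) (k : ℕ) {m : ℕ} (hm : 2 ≤ m) :
    (((⌊Real.log (C * (m : ℝ) ^ k)⌋₊ + 1 : ℕ)) : ℝ)
      ≤ ((Real.log C + 1) / Real.log 2 + k) * Real.log m := by
  have hm' : (2 : ℝ) ≤ m := by exact_mod_cast hm
  have h2 : 0 < Real.log 2 := Real.log_pos (by norm_num)
  have hlm : Real.log 2 ≤ Real.log m := Real.log_le_log (by norm_num) hm'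
  have hlC : 0 ≤ Real.log C := Real.log_nonneg hC
  have h1 : Real.log (C * (m : ℝ) ^ k) = Real.log C + k * Real.log m := by
    rw [Real.log_mul (by positivity) (by positivity), Real.log_pow]
  have h0 : 0 ≤ Real.log (C * (m : ℝ) ^ k) := by rw [h1]; positivity
  have h3 := Nat.floor_le h0
  push_cast
  have h4 : Real.log C + 1 ≤ (Real.log C + 1) / Real.log 2 * Real.log m := by
    rw [div_mul_eq_mul_div, le_div_iff₀ h2]
    exact mul_le_mul_of_nonneg_left hlm (by positivity)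
  rw [h1] at h3 ⊢
  nlinarith

theorem int_bd {n : ℤ} {x r : ℝ} (hx : 0 < x) (h : |(n : ℝ)| * x ≤ r) :
    n ∈ Finset.Icc (-⌊r / x⌋) ⌊r / x⌋ := by
  have h1 : |(n : ℝ)| ≤ r / x := by rwa [le_div_iff₀ hx]
  have h2 : |n| ≤ ⌊r / x⌋ := by
    rw [Int.le_floor]
    exact_mod_cast h1
  rw [Finset.mem_Icc]
  exact abs_le.1 h2

theorem Icc_card_le {r : ℝ} (hr : 0 ≤ r) {m : ℝ} {x : ℝ} (hx : 0 < x) (hm : 0 ≤ m) (hxm : x ≤ 2 * m) :
    (((Finset.Icc (-⌊r * m / x⌋) ⌊r * m / x⌋).card : ℕ) : ℝ) ≤ (2 * r + 2) * (m / x) := by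
  have h0 : 0 ≤ r * m / x := by positivity
  have h1 : 0 ≤ ⌊r * m / x⌋ := Int.floor_nonneg.2 h0
  rw [Int.card_Icc]
  have h2 : ((⌊r * m / x⌋ + 1 - -⌊r * m / x⌋).toNat : ℤ) = ⌊r * m / x⌋ + 1 - -⌊r * m / x⌋ := by
    rw [Int.toNat_of_nonneg]; omega
  have h3 : (((⌊r * m / x⌋ + 1 - -⌊r * m / x⌋).toNat : ℕ) : ℝ)
      = (⌊r * m / x⌋ : ℝ) + 1 + ⌊r * m / x⌋ := by
    have : (((⌊r * m / x⌋ + 1 - -⌊r * m / x⌋).toNat : ℤ) : ℝ)
      = ((⌊r * m / x⌋ + 1 - -⌊r * m / x⌋ : ℤ) : ℝ) := by rw [h2]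
    push_cast at this ⊢
    linarith
  rw [h3]
  have h4 := Int.floor_le (r * m / x)
  have h5 : 1 ≤ 2 * (m / x) := by
    rw [← mul_div_assoc, one_le_div hx]
    exact hxm
  have h6 : r * m / x = r * (m / x) := by ring
  rw [h6] at h4 ⊢
  nlinarith

theorem core (hBM : T_BM) (hEV1 : T_EV1) (hEV3 : T_EV3) (hW0 : T_W0) :
    ∃ C : ℝ, 0 ≤ C ∧ ∀ (m : ℕ) (φ : Frame) (s : Finset GZ), 2 ≤ m →
    |(φ.x01 : ℝ)| ≤ |(φ.x12 : ℝ)| → |(φ.x01 : ℝ)| ≤ |(φ.x02 : ℝ)| →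
    (∀ γ ∈ s, l1 (conjZ γ φ.M) ≤ m) →
    (s.card : ℝ) ≤ C * Real.log m ^ 2 * m ^ 3 / gp φ.ev := by
  obtain ⟨C, hC1, hC⟩ := dat_exists hEV1 hEV3 hW0
  have h2 : 0 < Real.log 2 := Real.log_pos (by norm_num)
  have hlC : 0 ≤ Real.log C := Real.log_nonneg hC1
  have hlC2 : 0 ≤ Real.log (2 * C) := Real.log_nonneg (by linarith)
  refine ⟨((2 * 63 + 1) ^ 9 : ℕ) * (((Real.log C + 1) / Real.log 2 + (2 : ℕ)) *
    ((Real.log (2 * C) + 1) / Real.log 2 + (3 : ℕ)) * (12 * 12 * 56)), by positivity, ?_⟩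
  intro m φ s hm hmin1 hmin2 hs
  have hm' : (2 : ℝ) ≤ m := by exact_mod_cast hm
  have hm0 : (0 : ℝ) ≤ m := by linarith
  have hlm : 0 ≤ Real.log m := Real.log_nonneg (by linarith)
  rcases s.eq_empty_or_nonempty with rfl | ⟨γ0, hγ0⟩
  · have : 0 ≤ gp φ.ev := by unfold gp; positivity
    simp only [Finset.card_empty, Nat.cast_zero]
    positivity
  -- gaps
  have hev := hEV3 m φ γ0 (hs γ0 hγ0)
  have hevR : ∀ i, |(φ.ev i : ℝ)| ≤ m := fun i => by exact_mod_cast hev i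
  have hne : ∀ i j, i ≠ j → φ.ev j - φ.ev i ≠ 0 := by
    intro i j hij h
    exact hij (φ.inj (by omega))
  have hgap : ∀ i j, |((φ.ev j - φ.ev i : ℤ) : ℝ)| ≤ 2 * m := by
    intro i j
    push_cast
    have := abs_sub (φ.ev j : ℝ) (φ.ev i)
    linarith [hevR i, hevR j]
  have X01 : 0 < |(φ.x01 : ℝ)| := abs_pos.2 (by exact_mod_cast hne 0 1 (by decide))
  have X12 : 0 < |(φ.x12 : ℝ)| := abs_pos.2 (by exact_mod_cast hne 1 2 (by decide))
  have X02 : 0 < |(φ.x02 : ℝ)| := abs_pos.2 (by exact_mod_cast hne 0 2 (by decide))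
  have Y01 : |(φ.x01 : ℝ)| ≤ 2 * m := hgap 0 1
  have Y12 : |(φ.x12 : ℝ)| ≤ 2 * m := hgap 1 2
  have Y02 : |(φ.x02 : ℝ)| ≤ 2 * m := hgap 0 2
  have hb : |(φ.x02 : ℝ)| ≤ 2 * |(φ.x12 : ℝ)| := by
    have h1 : (φ.x02 : ℝ) = φ.x01 + φ.x12 := by
      simp only [Frame.x02, Frame.x01, Frame.x12]; push_cast; ring
    rw [h1]
    have := abs_add_le (φ.x01 : ℝ) φ.x12
    linarith
  -- the data
  have hD : ∀ γ : {x // x ∈ s}, Nonempty (Dat m C φ.x01 φ.x12 φ.x02 |Matrix.det φ.Rm|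
      (fun i => cst (mulZ (γ : GZ) (φ.v i)))) := fun γ => hC m φ γ hm (hs γ γ.2)
  choose D _ using fun γ => Classical.exists_true_of_nonempty (hD γ)
  set f : {x // x ∈ s} → ℕ × ℕ × ℤ × ℤ × ℤ := fun γ =>
    ((D γ).p1, (D γ).p2, (D γ).n01, (D γ).n12,
      (D γ).n02 - ⌊((D γ).n01 : ℝ) * (D γ).n12 * φ.x01 / φ.x02⌋) with hf
  set T : Finset (ℕ × ℕ × ℤ × ℤ × ℤ) :=
    Finset.range (⌊Real.log (C * (m : ℝ) ^ 2)⌋₊ + 1) ×ˢ
      (Finset.range (⌊Real.log (2 * C * (m : ℝ) ^ 3)⌋₊ + 1) ×ˢ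
        (Finset.Icc (-⌊5 * m / |(φ.x01 : ℝ)|⌋) ⌊5 * m / |(φ.x01 : ℝ)|⌋ ×ˢ
          (Finset.Icc (-⌊5 * m / |(φ.x12 : ℝ)|⌋) ⌊5 * m / |(φ.x12 : ℝ)|⌋ ×ˢ
            Finset.Icc (-⌊27 * m / |(φ.x02 : ℝ)|⌋) ⌊27 * m / |(φ.x02 : ℝ)|⌋))) with hT
  have hmaps : ∀ γ ∈ s.attach, f γ ∈ T := by
    intro γ _
    rw [hT, hf]
    simp only [Finset.mem_product, Finset.mem_range]
    refine ⟨?_, ?_, ?_, ?_, ?_⟩
    · rw [Nat.lt_succ_iff]
      exact Nat.floor_mono (Real.log_le_log (D γ).n0pos (D γ).n0u)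
    · rw [Nat.lt_succ_iff]
      exact Nat.floor_mono (Real.log_le_log (D γ).n01pos (D γ).n1u)
    · exact int_bd X01 ((D γ).n01_bd Y01)
    · exact int_bd X12 ((D γ).n12_bd Y12)
    · apply int_bd X02
      have h3 := (D γ).n02_bd Y01 Y12 Y02 hmin1 hb
      have hx2 : (φ.x02 : ℝ) ≠ 0 := abs_pos.1 X02
      set q : ℝ := ((D γ).n01 : ℝ) * (D γ).n12 * φ.x01 / φ.x02 with hq
      have h4 : ((D γ).n02 : ℝ) * φ.x02 - (D γ).n01 * (D γ).n12 * φ.x01
          = ((D γ).n02 - q) * φ.x02 := by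
        rw [hq]; field_simp
      rw [h4, abs_mul] at h3
      have h5 : |(((D γ).n02 - ⌊q⌋ : ℤ) : ℝ)| ≤ |((D γ).n02 : ℝ) - q| + 1 := by
        push_cast
        have g1 := Int.floor_le q
        have g2 := Int.lt_floor_add_one q
        have g3 : |q - ⌊q⌋| ≤ 1 := by rw [abs_le]; constructor <;> linarith
        have g4 := abs_add_le ((D γ).n02 - q : ℝ) (q - ⌊q⌋)
        rw [sub_add_sub_cancel] at g4
        linarith
      have h6 := mul_le_mul_of_nonneg_right h5 X02.le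
      linarith
  have hfib : ∀ b ∈ T, (s.attach.filter (fun a => f a = b)).card ≤ (2 * 63 + 1) ^ 9 := by
    intro b _
    rw [← Finset.card_map (Function.Embedding.subtype _)]
    refine hBM 63 _ (Or.inr ?_)
    intro γ hγ γ' hγ' i j
    rw [Finset.mem_map] at hγ hγ'
    obtain ⟨a, ha, rfl⟩ := hγ
    obtain ⟨a', ha', rfl⟩ := hγ'
    rw [Finset.mem_filter] at ha ha'
    have hab : f a = f a' := ha.2.trans ha'.2.symm
    rw [hf] at hab
    simp only [Prod.mk.injEq] at hab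
    obtain ⟨e1, e2, e3, e4, e5⟩ := hab
    rw [e3, e4] at e5
    have e6 : (D a).n02 = (D a').n02 := by linarith
    have hH : ∀ i, (((((a : GZ) * (a' : GZ)⁻¹ : GZ) : MZ)).map (Int.cast : ℤ → ℝ)).mulVec
        (cst (mulZ (a' : GZ) (φ.v i))) = cst (mulZ (a : GZ) (φ.v i)) := by
      intro i
      have g1 : mulZ (a : GZ) (φ.v i) = mulZ ((a : GZ) * (a' : GZ)⁻¹) (mulZ (a' : GZ) (φ.v i)) := by
        rw [← mulZ_mul, mul_assoc, inv_mul_cancel, mul_one]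
      rw [g1]
      funext j
      simp only [cst, mulZ, Matrix.mulVec, dotProduct, Matrix.map_apply]
      push_cast
      rfl
    have g2 := Dat.cmp (D a) (D a') _ hH e1 e2 e3 e4 e6 i j
    rw [Matrix.map_apply] at g2
    have g3 : |((((a : GZ) * (a' : GZ)⁻¹ : GZ) : MZ) i j)| ≤ (63 : ℤ) := by exact_mod_cast g2
    exact g3
  have hcard := Finset.card_le_mul_card_image_of_maps_to hmaps _ hfib
  rw [Finset.card_attach] at hcard
  have hTc : (T.card : ℝ) ≤ (((Real.log C + 1) / Real.log 2 + (2 : ℕ)) * Real.log m) *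
      ((((Real.log (2 * C) + 1) / Real.log 2 + (3 : ℕ)) * Real.log m) *
      ((12 * (m / |(φ.x01 : ℝ)|)) * ((12 * (m / |(φ.x12 : ℝ)|)) * (56 * (m / |(φ.x02 : ℝ)|))))) := by
    rw [hT, Finset.card_product, Finset.card_product, Finset.card_product, Finset.card_product,
      Finset.card_range, Finset.card_range]
    have k1 := log_bd hC1 2 hm
    have k2 := log_bd (C := 2 * C) (by linarith) 3 hm
    have k3 := Icc_card_le (r := 5) (by norm_num) X01 hm0 Y01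
    have k4 := Icc_card_le (r := 5) (by norm_num) X12 hm0 Y12
    have k5 := Icc_card_le (r := 27) (by norm_num) X02 hm0 Y02
    norm_num only at k3 k4 k5
    rw [Nat.cast_mul, Nat.cast_mul, Nat.cast_mul, Nat.cast_mul]
    gcongr
  have hcard' : (s.card : ℝ) ≤ ((2 * 63 + 1) ^ 9 : ℕ) * (T.card : ℝ) := by exact_mod_cast hcard
  refine hcard'.trans ((mul_le_mul_of_nonneg_left hTc (by positivity)).trans (le_of_eq ?_))
  have hgp : gp φ.ev = |(φ.x01 : ℝ)| * |(φ.x12 : ℝ)| * |(φ.x02 : ℝ)| := rfl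
  rw [hgp]
  field_simp

/-- L1: number of small conjugates -/
theorem L1 (hBM : T_BM) (hEV1 : T_EV1) (hEV3 : T_EV3) (hW0 : T_W0) : T_L1 := by
  obtain ⟨C, hC0, hC⟩ := core hBM hEV1 hEV3 hW0
  refine ⟨C, ?_⟩
  intro m φ s hm hs
  rcases le_total |(φ.x01 : ℝ)| |(φ.x12 : ℝ)| with h1 | h1
  · rcases le_total |(φ.x01 : ℝ)| |(φ.x02 : ℝ)| with h2 | h2
    · exact hC m φ s hm h1 h2 hs
    · -- x02 minimal
      have h3 := hC m (φ.perm (Equiv.swap 1 2)) s hm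
      have e1 : ((φ.perm (Equiv.swap 1 2)).x01 : ℝ) = φ.x02 := by
        simp [Frame.x01, Frame.x02, Frame.perm, Equiv.swap_apply_def]
      have e2 : ((φ.perm (Equiv.swap 1 2)).x12 : ℝ) = -φ.x12 := by
        simp [Frame.x12, Frame.perm, Equiv.swap_apply_def]
      have e3 : ((φ.perm (Equiv.swap 1 2)).x02 : ℝ) = φ.x01 := by
        simp [Frame.x01, Frame.x02, Frame.perm, Equiv.swap_apply_def]
      have hgp : gp (φ.perm (Equiv.swap 1 2)).ev = gp φ.ev := by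
        have g1 : gp (φ.perm (Equiv.swap 1 2)).ev = |((φ.perm (Equiv.swap 1 2)).x01 : ℝ)| *
          |((φ.perm (Equiv.swap 1 2)).x12 : ℝ)| * |((φ.perm (Equiv.swap 1 2)).x02 : ℝ)| := rfl
        have g2 : gp φ.ev = |(φ.x01 : ℝ)| * |(φ.x12 : ℝ)| * |(φ.x02 : ℝ)| := rfl
        rw [g1, g2, e1, e2, e3, abs_neg]
        ring
      rw [hgp, e1, e2, e3, abs_neg] at h3
      exact h3 (h2.trans h1) h2 hs
  · rcases le_total |(φ.x12 : ℝ)| |(φ.x02 : ℝ)| with h2 | h2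
    · -- x12 minimal
      have h3 := hC m (φ.perm (finRotate 3)) s hm
      have r0 : finRotate 3 0 = 1 := by decide
      have r1 : finRotate 3 1 = 2 := by decide
      have r2 : finRotate 3 2 = 0 := by decide
      have e1 : ((φ.perm (finRotate 3)).x01 : ℝ) = φ.x12 := by
        simp only [Frame.x01, Frame.x12, Frame.perm, r0, r1, r2]
      have e2 : ((φ.perm (finRotate 3)).x12 : ℝ) = -φ.x02 := by
        simp only [Frame.x12, Frame.x02, Frame.perm, r0, r1, r2]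
        push_cast; ring
      have e3 : ((φ.perm (finRotate 3)).x02 : ℝ) = -φ.x01 := by
        simp only [Frame.x01, Frame.x02, Frame.perm, r0, r1, r2]
        push_cast; ring
      have hgp : gp (φ.perm (finRotate 3)).ev = gp φ.ev := by
        have g1 : gp (φ.perm (finRotate 3)).ev = |((φ.perm (finRotate 3)).x01 : ℝ)| *
          |((φ.perm (finRotate 3)).x12 : ℝ)| * |((φ.perm (finRotate 3)).x02 : ℝ)| := rfl
        have g2 : gp φ.ev = |(φ.x01 : ℝ)| * |(φ.x12 : ℝ)| * |(φ.x02 : ℝ)| := rfl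
        rw [g1, g2, e1, e2, e3, abs_neg, abs_neg]
        ring
      rw [hgp, e1, e2, e3, abs_neg, abs_neg] at h3
      exact h3 h2 h1 hs
    · -- x02 minimal
      have h3 := hC m (φ.perm (Equiv.swap 1 2)) s hm
      have e1 : ((φ.perm (Equiv.swap 1 2)).x01 : ℝ) = φ.x02 := by
        simp [Frame.x01, Frame.x02, Frame.perm, Equiv.swap_apply_def]
      have e2 : ((φ.perm (Equiv.swap 1 2)).x12 : ℝ) = -φ.x12 := by
        simp [Frame.x12, Frame.perm, Equiv.swap_apply_def]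
      have e3 : ((φ.perm (Equiv.swap 1 2)).x02 : ℝ) = φ.x01 := by
        simp [Frame.x01, Frame.x02, Frame.perm, Equiv.swap_apply_def]
      have hgp : gp (φ.perm (Equiv.swap 1 2)).ev = gp φ.ev := by
        have g1 : gp (φ.perm (Equiv.swap 1 2)).ev = |((φ.perm (Equiv.swap 1 2)).x01 : ℝ)| *
          |((φ.perm (Equiv.swap 1 2)).x12 : ℝ)| * |((φ.perm (Equiv.swap 1 2)).x02 : ℝ)| := rfl
        have g2 : gp φ.ev = |(φ.x01 : ℝ)| * |(φ.x12 : ℝ)| * |(φ.x02 : ℝ)| := rfl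
        rw [g1, g2, e1, e2, e3, abs_neg]
        ring
      rw [hgp, e1, e2, e3, abs_neg] at h3
      exact h3 h2 (h2.trans h1) hs

end KF92
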